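import Pool.Agent.Y732.Fam

/-!
# The number of coprime pairs in residue classes
-/

set_option autoImplicit false

namespace Pool.Agent.K3h2.SR

open Finset Pool.Agent.Y732

open scoped Classical in
theorem cop_card (a : ℤ) (N q : ℕ) (hq2 : 2 ∣ q) (hq0 : 0 < q) (hN : 56 * q ^ 2 ≤ N) (A₁ y₁ : ℤ)
    (hgood : ∀ ℓ : ℕ, ℓ.Prime → ℓ ∣ q → ¬ ((ℓ : ℤ) ∣ A₁ ∧ (ℓ : ℤ) ∣ y₁)) :
    (N : ℚ) ^ 2 / (4 * q ^ 2) ≤ ((((Ico a (a + N)) ×ˢ (Ico (1 : ℤ) (1 + N))).filter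
      fun z : ℤ × ℤ => (z.1 ≡ A₁ [ZMOD q] ∧ z.2 ≡ y₁ [ZMOD q]) ∧ IsCoprime z.1 z.2).card : ℚ) := by
  set S : Finset (ℤ × ℤ) := ((Ico a (a + N)).filter fun z => z ≡ A₁ [ZMOD q]) ×ˢ
    ((Ico (1 : ℤ) (1 + N)).filter fun z => z ≡ y₁ [ZMOD q]) with hS
  set L : Finset ℕ := (Icc 3 N).filter fun ℓ => Nat.Coprime q ℓ with hL
  set Bd : ℕ → Finset (ℤ × ℤ) := fun ℓ =>
    ((Ico a (a + N)).filter fun z => z ≡ A₁ [ZMOD q] ∧ (ℓ : ℤ) ∣ z + 0) ×ˢ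
    ((Ico (1 : ℤ) (1 + N)).filter fun z => z ≡ y₁ [ZMOD q] ∧ (ℓ : ℤ) ∣ z + 0) with hBd
  set G : Finset (ℤ × ℤ) := ((Ico a (a + N)) ×ˢ (Ico (1 : ℤ) (1 + N))).filter fun z : ℤ × ℤ =>
      (z.1 ≡ A₁ [ZMOD (q : ℕ)] ∧ z.2 ≡ y₁ [ZMOD (q : ℕ)]) ∧ IsCoprime z.1 z.2 with hG
  have hcover : S ⊆ G ∪ L.biUnion Bd := by
    rintro ⟨A, y⟩ hz
    rw [hS, mem_product, mem_filter, mem_filter] at hz
    obtain ⟨⟨hA, hA1⟩, ⟨hy, hy1⟩⟩ := hz
    simp only at hA hA1 hy hy1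
    rw [mem_union]
    by_cases hns : IsCoprime A y
    · left
      rw [hG, mem_filter, mem_product]
      exact ⟨⟨hA, hy⟩, ⟨hA1, hy1⟩, hns⟩
    · right
      rw [Int.isCoprime_iff_nat_coprime, Nat.Prime.not_coprime_iff_dvd] at hns
      obtain ⟨ℓ, hℓ, h1, h2⟩ := hns
      have hℓA : (ℓ : ℤ) ∣ A := Int.natCast_dvd.2 h1
      have hℓy : (ℓ : ℤ) ∣ y := Int.natCast_dvd.2 h2
      have hcop : ¬ ℓ ∣ q := by
        intro hdvd
        have hdz : (ℓ : ℤ) ∣ q := by exact_mod_cast hdvd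
        apply hgood ℓ hℓ hdvd
        constructor
        · have h3 := hdz.trans hA1.symm.dvd
          have h4 := dvd_sub hℓA h3
          rwa [sub_sub_cancel] at h4
        · have h3 := hdz.trans hy1.symm.dvd
          have h4 := dvd_sub hℓy h3
          rwa [sub_sub_cancel] at h4
      rw [mem_Ico] at hy
      have hℓN : ℓ ≤ N := by
        have := Int.le_of_dvd (by omega) hℓy
        omega
      have hℓ3 : 3 ≤ ℓ := by
        have h3 := hℓ.two_le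
        have h4 : ℓ ≠ 2 := by
          rintro rfl
          exact hcop hq2
        omega
      rw [mem_biUnion]
      refine ⟨ℓ, ?_, ?_⟩
      · rw [hL, mem_filter, mem_Icc]
        exact ⟨⟨hℓ3, hℓN⟩, ((Nat.Prime.coprime_iff_not_dvd hℓ).2 hcop).symm⟩
      · rw [hBd]
        simp only [mem_product, mem_filter, mem_Ico]
        exact ⟨⟨by simpa using hA, hA1, by rwa [add_zero]⟩, ⟨hy, hy1, by rwa [add_zero]⟩⟩
  have h1 : (S.card : ℚ) ≤ G.card + ∑ ℓ ∈ L, ((Bd ℓ).card : ℚ) := by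
    have h2 := (card_le_card hcover).trans ((card_union_le _ _).trans
      (Nat.add_le_add_left card_biUnion_le _))
    exact_mod_cast h2
  have hNq : (1 : ℚ) ≤ N / q := by
    rw [le_div_iff₀ (by exact_mod_cast hq0), one_mul]
    have : q ≤ N := by
      nlinarith
    exact_mod_cast this
  have h2 : ((N : ℚ) / q - 1) ^ 2 ≤ S.card := by
    rw [hS, card_product]
    push_cast
    rw [pow_two]
    apply mul_le_mul (class_card_ge a N q hq0 A₁) (class_card_ge 1 N q hq0 y₁) (by linarith)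
    positivity
  have h3 : ∀ ℓ ∈ L, ((Bd ℓ).card : ℚ) ≤ 5 / 4 * ((N : ℚ) / q) ^ 2 * (1 / (ℓ : ℚ) ^ 2) + 5 := by
    intro ℓ hℓ
    rw [hL, mem_filter, mem_Icc] at hℓ
    have hℓ0 : 0 < ℓ := by omega
    have hℓQ : (0 : ℚ) < ℓ := by exact_mod_cast hℓ0
    have hqQ : (0 : ℚ) < q := by exact_mod_cast hq0
    have h4 := bad_le a N q ℓ hq0 hℓ0 hℓ.2 A₁ 0
    have h5 := bad_le 1 N q ℓ hq0 hℓ0 hℓ.2 y₁ 0
    rw [hBd]
    simp only [card_product]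
    push_cast
    have h6 : ((N : ℚ) / (q * ℓ) + 1) ^ 2 ≤ 5 / 4 * ((N : ℚ) / q) ^ 2 * (1 / (ℓ : ℚ) ^ 2) + 5 := by
      have e : 5 / 4 * ((N : ℚ) / q) ^ 2 * (1 / (ℓ : ℚ) ^ 2) = 5 / 4 * ((N : ℚ) / (q * ℓ)) ^ 2 := by
        field_simp
      rw [e]
      nlinarith [sq_nonneg ((N : ℚ) / (q * ℓ) / 2 - 2)]
    refine le_trans (mul_le_mul h4 h5 (by positivity) (by positivity)) (le_trans ?_ h6)
    rw [← pow_two]
  have h4 : ∑ ℓ ∈ L, ((Bd ℓ).card : ℚ) ≤ 5 / 8 * ((N : ℚ) / q) ^ 2 + 5 * N := by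
    calc ∑ ℓ ∈ L, ((Bd ℓ).card : ℚ) ≤
          ∑ ℓ ∈ L, (5 / 4 * ((N : ℚ) / q) ^ 2 * (1 / (ℓ : ℚ) ^ 2) + 5) := sum_le_sum h3
      _ ≤ ∑ ℓ ∈ Icc 3 N, (5 / 4 * ((N : ℚ) / q) ^ 2 * (1 / (ℓ : ℚ) ^ 2) + 5) := by
          apply sum_le_sum_of_subset_of_nonneg (filter_subset _ _)
          intro ℓ _ _
          positivity
      _ = 5 / 4 * ((N : ℚ) / q) ^ 2 * (∑ ℓ ∈ Icc 3 N, (1 : ℚ) / (ℓ : ℚ) ^ 2) +
          5 * ((Icc 3 N).card : ℚ) := by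
          rw [sum_add_distrib, ← mul_sum, sum_const, nsmul_eq_mul]
          ring
      _ ≤ 5 / 4 * ((N : ℚ) / q) ^ 2 * (1 / 2) + 5 * N := by
          have h5 : ((Icc 3 N).card : ℚ) ≤ N := by
            rw [Nat.card_Icc]
            have : N + 1 - 3 ≤ N := by omega
            exact_mod_cast this
          have h6 := sum_inv_sq N
          have h7 : (0 : ℚ) ≤ 5 / 4 * ((N : ℚ) / q) ^ 2 := by positivity
          nlinarith
      _ = _ := by ring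
  have h5 : (N : ℚ) ^ 2 / (4 * q ^ 2) = 1 / 4 * ((N : ℚ) / q) ^ 2 := by
    field_simp
  rw [h5]
  -- `(1/8) (N/q)² ≥ 7 N`
  have h6 : 56 * (N : ℚ) ≤ ((N : ℚ) / q) ^ 2 := by
    have hqQ : (0 : ℚ) < q := by exact_mod_cast hq0
    rw [div_pow, le_div_iff₀ (by positivity)]
    have h7 : 56 * (q : ℚ) ^ 2 ≤ N := by exact_mod_cast hN
    have h8 : (0 : ℚ) ≤ N := by positivity
    nlinarith
  have h9 : (N : ℚ) / q ≤ N := by
    apply div_le_self (by positivity)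
    exact_mod_cast hq0
  nlinarith

end Pool.Agent.K3h2.SR
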