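import Pool.Agent.K3h2.SR.Fam

set_option autoImplicit false

namespace Pool.Agent.K3h2.SR

open Pool.Agent.Y732 WeierstrassCurve

lemma H_id (A B a b : ℤ) : Hf A B a b =
    -((3 * a ^ 2 + A * b ^ 2) * (Gf A B a b - 4 * a * gf A B a b) + 8 * gf A B a b ^ 2) := by
  unfold Hf Gf gf
  ring

lemma Q_eqn (A B a b : ℤ) : (twist A B (Df A B a b)).toAffine.Equation (a * gf A B a b)
    (gf A B a b ^ 2) := by
  rw [Affine.equation_iff]
  simp only [twist, Df, gf]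
  ring

/-- `2 Q = (G / 4, H / 8)` -/
theorem dbl {A B a b : ℤ} (hAB : 4 * A ^ 3 + 27 * B ^ 2 ≠ 0) (hD : Df A B a b ≠ 0) :
    pt (twist A B (Df A B a b)) (a * gf A B a b) (gf A B a b ^ 2) 1 +
      pt (twist A B (Df A B a b)) (a * gf A B a b) (gf A B a b ^ 2) 1 =
      pt (twist A B (Df A B a b)) (Gf A B a b) (Hf A B a b) 2 := by
  have hg : gf A B a b ≠ 0 := by
    intro h
    apply hD
    unfold Df
    rw [h, mul_zero]
  have hdisc : (twist A B (Df A B a b)).Δ ≠ 0 := by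
    rw [twist_disc]
    exact mul_ne_zero (mul_ne_zero (by norm_num) hAB) (pow_ne_zero 6 hD)
  obtain ⟨g, hgd⟩ : ∃ g : ℚ, g = (gf A B a b : ℚ) := ⟨_, rfl⟩
  have hg0 : g ≠ 0 := by
    rw [hgd]
    exact_mod_cast hg
  have hDQ : ((Df A B a b : ℤ) : ℚ) = b * g := by
    unfold Df
    push_cast
    rw [hgd]
  have e1 : (WQ (twist A B (Df A B a b))).a₁ = 0 := by
    change ((0 : ℤ) : ℚ) = 0
    simp
  have e2 : (WQ (twist A B (Df A B a b))).a₂ = 0 := by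
    change ((0 : ℤ) : ℚ) = 0
    simp
  have e3 : (WQ (twist A B (Df A B a b))).a₃ = 0 := by
    change ((0 : ℤ) : ℚ) = 0
    simp
  have e4 : (WQ (twist A B (Df A B a b))).a₄ = A * (b * g) ^ 2 := by
    change ((A * Df A B a b ^ 2 : ℤ) : ℚ) = _
    push_cast
    rw [hDQ]
  have n1 := nonsingular_WQ (Q_eqn A B a b) hdisc
  rw [pt_one n1]
  have hx : ((a * gf A B a b : ℤ) : ℚ) = a * g := by
    push_cast
    rw [hgd]
  have hy : ((gf A B a b ^ 2 : ℤ) : ℚ) = g ^ 2 := by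
    push_cast
    rw [hgd]
  have hneg : (WQ (twist A B (Df A B a b))).negY ((a * gf A B a b : ℤ) : ℚ)
      ((gf A B a b ^ 2 : ℤ) : ℚ) = -g ^ 2 := by
    rw [Affine.negY, e1, e3, hy]
    ring
  have hne : ((gf A B a b ^ 2 : ℤ) : ℚ) ≠ (WQ (twist A B (Df A B a b))).negY
      ((a * gf A B a b : ℤ) : ℚ) ((gf A B a b ^ 2 : ℤ) : ℚ) := by
    rw [hneg, hy]
    intro h
    have h1 : g ^ 2 = 0 := by linarith
    exact hg0 (pow_eq_zero_iff two_ne_zero |>.1 h1)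
  have hs : (WQ (twist A B (Df A B a b))).slope ((a * gf A B a b : ℤ) : ℚ)
      ((a * gf A B a b : ℤ) : ℚ) ((gf A B a b ^ 2 : ℤ) : ℚ) ((gf A B a b ^ 2 : ℤ) : ℚ) =
      (3 * a ^ 2 + A * b ^ 2) / 2 := by
    rw [Affine.slope_of_Y_ne rfl hne, hneg, e1, e2, e4, hx, hy]
    field_simp
    ring
  have hxy : ¬ (((a * gf A B a b : ℤ) : ℚ) = ((a * gf A B a b : ℤ) : ℚ) ∧
      ((gf A B a b ^ 2 : ℤ) : ℚ) = (WQ (twist A B (Df A B a b))).negY
      ((a * gf A B a b : ℤ) : ℚ) ((gf A B a b ^ 2 : ℤ) : ℚ)) := fun h => hne h.2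
  have hX : (WQ (twist A B (Df A B a b))).addX ((a * gf A B a b : ℤ) : ℚ)
      ((a * gf A B a b : ℤ) : ℚ) ((WQ (twist A B (Df A B a b))).slope ((a * gf A B a b : ℤ) : ℚ)
      ((a * gf A B a b : ℤ) : ℚ) ((gf A B a b ^ 2 : ℤ) : ℚ) ((gf A B a b ^ 2 : ℤ) : ℚ)) =
      (Gf A B a b : ℚ) / ((2 : ℤ) : ℚ) ^ 2 := by
    rw [hs, Affine.addX, e1, e2, hx, G_id]
    push_cast
    rw [← hgd]
    ring
  have hY : (WQ (twist A B (Df A B a b))).addY ((a * gf A B a b : ℤ) : ℚ)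
      ((a * gf A B a b : ℤ) : ℚ) ((gf A B a b ^ 2 : ℤ) : ℚ)
      ((WQ (twist A B (Df A B a b))).slope ((a * gf A B a b : ℤ) : ℚ)
      ((a * gf A B a b : ℤ) : ℚ) ((gf A B a b ^ 2 : ℤ) : ℚ) ((gf A B a b ^ 2 : ℤ) : ℚ)) =
      (Hf A B a b : ℚ) / ((2 : ℤ) : ℚ) ^ 3 := by
    rw [Affine.addY, hX, Affine.negAddY, hX, hs, Affine.negY, e1, e3, H_id, hx, hy]
    push_cast
    rw [← hgd]
    ring
  have hn : (WQ (twist A B (Df A B a b))).Nonsingular ((Gf A B a b : ℚ) / ((2 : ℤ) : ℚ) ^ 2)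
      ((Hf A B a b : ℚ) / ((2 : ℤ) : ℚ) ^ 3) := by
    rw [← hX, ← hY]
    exact Affine.nonsingular_add n1 n1 hxy
  rw [Affine.Point.add_some hxy, pt, dif_pos hn, Affine.Point.some.injEq]
  exact ⟨hX, hY⟩

end Pool.Agent.K3h2.SR
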