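import Pool.Agent.R89.SR.Line

/-!
# The quadratic twists of an elliptic curve with a rational point

For `E : y² = x³ + A x + B` and `D = b (a³ + A a b² + B b³) = b⁴ f(a / b)` the twist
`E_D : y² = x³ + A D² x + B D³` has the point `Q = (a g, g²)`, `g = a³ + A a b² + B b³`, and
`2 Q = (G / 4, H / 8)`.
-/

set_option autoImplicit false

namespace Pool.Agent.K3h2.SR

open MvPolynomial Pool.Agent.Y732

/-- `g = a³ + A a b² + B b³` -/
def gf (A B a b : ℤ) : ℤ := a ^ 3 + A * a * b ^ 2 + B * b ^ 3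

/-- `D = b g = b⁴ f(a / b)` -/
def Df (A B a b : ℤ) : ℤ := b * gf A B a b

/-- four times the `x`-coordinate of `2 Q` -/
def Gf (A B a b : ℤ) : ℤ := a ^ 4 - 2 * A * a ^ 2 * b ^ 2 - 8 * B * a * b ^ 3 + A ^ 2 * b ^ 4

/-- eight times the `y`-coordinate of `2 Q` -/
def Hf (A B a b : ℤ) : ℤ :=
  a ^ 6 + 5 * A * a ^ 4 * b ^ 2 + 20 * B * a ^ 3 * b ^ 3 - 5 * A ^ 2 * a ^ 2 * b ^ 4 -
    4 * A * B * a * b ^ 5 - (8 * B ^ 2 + A ^ 3) * b ^ 6

/-- the quadratic twist `y² = x³ + A D² x + B D³` of `y² = x³ + A x + B` -/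
def twist (A B D : ℤ) : WeierstrassCurve ℤ := ⟨0, 0, 0, A * D ^ 2, B * D ^ 3⟩

/-! ### The polynomials -/

lemma mon (c : ℤ) (i j n : ℕ) (hn : i + j = n) :
    IsWeightedHomogeneous (![1, 1] : Fin 2 → ℕ) (C c * (X 0 ^ i * X 1 ^ j)) n := by
  have h1 := (isWeightedHomogeneous_C (![1, 1] : Fin 2 → ℕ) c).mul
    (((isWeightedHomogeneous_X ℤ (![1, 1] : Fin 2 → ℕ) 0).pow i).mul
      ((isWeightedHomogeneous_X ℤ (![1, 1] : Fin 2 → ℕ) 1).pow j))
  have h2 : 0 + (i • (![1, 1] : Fin 2 → ℕ) 0 + j • (![1, 1] : Fin 2 → ℕ) 1) = n := by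
    simp [hn]
  rw [h2] at h1
  exact h1

noncomputable def Dp (A B : ℤ) : MvPolynomial (Fin 2) ℤ :=
  C 1 * (X 0 ^ 3 * X 1 ^ 1) + C A * (X 0 ^ 1 * X 1 ^ 3) + C B * (X 0 ^ 0 * X 1 ^ 4)

noncomputable def Gp (A B : ℤ) : MvPolynomial (Fin 2) ℤ :=
  C 1 * (X 0 ^ 4 * X 1 ^ 0) + C (-2 * A) * (X 0 ^ 2 * X 1 ^ 2) + C (-8 * B) * (X 0 ^ 1 * X 1 ^ 3) +
    C (A ^ 2) * (X 0 ^ 0 * X 1 ^ 4)

noncomputable def Hp (A B : ℤ) : MvPolynomial (Fin 2) ℤ :=
  C 1 * (X 0 ^ 6 * X 1 ^ 0) + C (5 * A) * (X 0 ^ 4 * X 1 ^ 2) + C (20 * B) * (X 0 ^ 3 * X 1 ^ 3) +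
    C (-5 * A ^ 2) * (X 0 ^ 2 * X 1 ^ 4) + C (-4 * A * B) * (X 0 ^ 1 * X 1 ^ 5) +
    C (-(8 * B ^ 2 + A ^ 3)) * (X 0 ^ 0 * X 1 ^ 6)

lemma hDp (A B : ℤ) : IsWeightedHomogeneous (![1, 1] : Fin 2 → ℕ) (Dp A B) 4 :=
  ((mon _ 3 1 4 rfl).add (mon _ 1 3 4 rfl)).add (mon _ 0 4 4 rfl)

lemma hGp (A B : ℤ) : IsWeightedHomogeneous (![1, 1] : Fin 2 → ℕ) (Gp A B) 4 :=
  (((mon _ 4 0 4 rfl).add (mon _ 2 2 4 rfl)).add (mon _ 1 3 4 rfl)).add (mon _ 0 4 4 rfl)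

lemma hHp (A B : ℤ) : IsWeightedHomogeneous (![1, 1] : Fin 2 → ℕ) (Hp A B) 6 :=
  (((((mon _ 6 0 6 rfl).add (mon _ 4 2 6 rfl)).add (mon _ 3 3 6 rfl)).add (mon _ 2 4 6 rfl)).add
    (mon _ 1 5 6 rfl)).add (mon _ 0 6 6 rfl)

lemma eval_Dp (A B : ℤ) (v : Fin 2 → ℤ) : eval v (Dp A B) = Df A B (v 0) (v 1) := by
  simp [Dp, Df, gf]
  ring

lemma eval_Gp (A B : ℤ) (v : Fin 2 → ℤ) : eval v (Gp A B) = Gf A B (v 0) (v 1) := by
  simp [Gp, Gf]
  ring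

lemma eval_Hp (A B : ℤ) (v : Fin 2 → ℤ) : eval v (Hp A B) = Hf A B (v 0) (v 1) := by
  simp [Hp, Hf]
  ring

/-- the family of the twists `E_D`, `D = b⁴ f(a / b)`, with the point `2 Q`; the parameters are
`(a, b)`, both of weight `1` -/
noncomputable def twistFamily (A B : ℤ) : Family 2 1 where
  w := ![1, 1]
  χ := 2
  n := fun _ _ => 0
  W := ⟨0, 0, 0, C A * Dp A B ^ 2, C B * Dp A B ^ 3⟩
  x := fun _ _ => Gp A B
  y := fun _ _ => Hp A B
  e := fun _ _ => C 2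
  h₁ := isWeightedHomogeneous_zero ℤ _ _
  h₂ := isWeightedHomogeneous_zero ℤ _ _
  h₃ := isWeightedHomogeneous_zero ℤ _ _
  h₄ := by
    have h := (isWeightedHomogeneous_C (![1, 1] : Fin 2 → ℕ) A).mul ((hDp A B).pow 2)
    exact h
  h₆ := by
    have h := (isWeightedHomogeneous_C (![1, 1] : Fin 2 → ℕ) B).mul ((hDp A B).pow 3)
    exact h
  hx := fun _ _ => hGp A B
  hy := fun _ _ => hHp A B
  he := fun _ _ => isWeightedHomogeneous_C _ 2

lemma twistFamily_K (A B : ℤ) : (twistFamily A B).K.det = 4 := by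
  rw [Matrix.det_fin_one]
  simp [Family.K, twistFamily]

lemma twistFamily_curve (A B : ℤ) (v : Fin 2 → ℤ) :
    (twistFamily A B).curve v = twist A B (Df A B (v 0) (v 1)) := by
  ext <;> simp [Family.curve, twistFamily, twist, eval_Dp]

lemma twistFamily_P (A B : ℤ) (v : Fin 2 → ℤ) (i j : Fin 2) :
    (twistFamily A B).P v i j = pt ((twistFamily A B).curve v) (Gf A B (v 0) (v 1))
      (Hf A B (v 0) (v 1)) 2 := by
  have h1 : eval v ((twistFamily A B).x i j) = Gf A B (v 0) (v 1) := eval_Gp A B v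
  have h2 : eval v ((twistFamily A B).y i j) = Hf A B (v 0) (v 1) := eval_Hp A B v
  have h3 : eval v ((twistFamily A B).e i j) = 2 := by
    change eval v (C 2 : MvPolynomial (Fin 2) ℤ) = 2
    rw [eval_C]
  unfold Family.P
  rw [h1, h2, h3]

/-! ### The marked members -/

lemma gcd_id (A B a b : ℤ) : (4 * A ^ 3 + 27 * B ^ 2) * b ^ 6 =
    (3 * a ^ 2 + A * b ^ 2) ^ 2 * (3 * a ^ 2 + 4 * (A * b ^ 2)) -
      27 * gf A B a b * (a ^ 3 + A * a * b ^ 2 - B * b ^ 3) := by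
  unfold gf
  ring

lemma G_id (A B a b : ℤ) : Gf A B a b = (3 * a ^ 2 + A * b ^ 2) ^ 2 - 8 * a * gf A B a b := by
  unfold gf Gf
  ring

lemma curve_id (A B a b : ℤ) : Hf A B a b ^ 2 = Gf A B a b ^ 3 +
    16 * (A * Df A B a b ^ 2) * Gf A B a b + 64 * (B * Df A B a b ^ 3) := by
  unfold Hf Gf Df gf
  ring

/-- `(a, b)` are coprime, all primes dividing the discriminant of `E` and `2` divide `b`, and
`D ≠ 0` -/
def Adm (A B a b : ℤ) : Prop :=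
  IsCoprime a b ∧ 2 * (4 * A ^ 3 + 27 * B ^ 2) ∣ b ∧ Df A B a b ≠ 0

lemma G_odd {A B a b : ℤ} (h : Adm A B a b) : IsCoprime (Gf A B a b) 2 := by
  obtain ⟨h1, h2, -⟩ := h
  have hb : (2 : ℤ) ∣ b := (Dvd.intro _ rfl).trans h2
  have ha : ¬ (2 : ℤ) ∣ a := by
    intro ha
    have := h1.isUnit_of_dvd' ha hb
    exact absurd (Int.isUnit_iff.1 this) (by norm_num)
  have hG : ¬ (2 : ℤ) ∣ Gf A B a b := by
    intro hG
    have h3 : (2 : ℤ) ∣ a ^ 4 := by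
      have e : a ^ 4 = Gf A B a b - b * (-2 * A * a ^ 2 * b - 8 * B * a * b ^ 2 + A ^ 2 * b ^ 3) := by
        unfold Gf
        ring
      rw [e]
      exact dvd_sub hG (hb.mul_right _)
    exact ha (Int.prime_two.dvd_of_dvd_pow h3)
  exact (Int.prime_two.coprime_iff_not_dvd.2 hG).symm

/-- the point `2 Q` is nonsingular modulo all primes -/
lemma adm_ns {A B a b : ℤ} (h : Adm A B a b) :
    EverywhereNonsingular (twist A B (Df A B a b)) (Gf A B a b) (Hf A B a b) 2 := by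
  obtain ⟨h1, h2, -⟩ := h
  intro ℓ hℓ
  by_cases hℓ2 : (ℓ : ℤ) ∣ 2
  · exact Or.inl hℓ2
  right
  have hp := Nat.prime_iff_prime_int.1 hℓ
  simp only [twist]
  rintro ⟨k1, k2⟩
  set D := Df A B a b with hD
  have kH : (ℓ : ℤ) ∣ Hf A B a b := by
    have e : 2 * Hf A B a b + 0 * Gf A B a b * 2 + 0 * 2 ^ 3 = 2 * Hf A B a b := by ring
    rw [e] at k1
    exact (hp.dvd_or_dvd k1).resolve_left hℓ2
  have kG : (ℓ : ℤ) ∣ 3 * Gf A B a b ^ 2 + 16 * (A * D ^ 2) := by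
    have e : 3 * Gf A B a b ^ 2 + 16 * (A * D ^ 2) = -(0 * Hf A B a b * 2 -
        (3 * Gf A B a b ^ 2 + 2 * 0 * Gf A B a b * 2 ^ 2 + A * D ^ 2 * 2 ^ 4)) := by ring
    rw [e]
    exact k2.neg_right
  -- `ℓ` divides `D`
  have kD : (ℓ : ℤ) ∣ D := by
    have e : 4096 * (4 * A ^ 3 + 27 * B ^ 2) * D ^ 6 =
        (3 * Gf A B a b ^ 2 + 16 * (A * D ^ 2)) ^ 2 *
          (3 * Gf A B a b ^ 2 + 4 * (16 * (A * D ^ 2))) -
        27 * Hf A B a b ^ 2 * (Gf A B a b ^ 3 + 16 * (A * D ^ 2) * Gf A B a b -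
          64 * (B * D ^ 3)) := by
      rw [curve_id, ← hD]
      ring
    have k3 : (ℓ : ℤ) ∣ 4096 * (4 * A ^ 3 + 27 * B ^ 2) * D ^ 6 := by
      rw [e]
      refine dvd_sub ((dvd_pow kG two_ne_zero).mul_right _) ?_
      exact ((dvd_pow kH two_ne_zero).mul_left 27).mul_right _
    rcases hp.dvd_or_dvd k3 with k4 | k4
    · rcases hp.dvd_or_dvd k4 with k5 | k5
      · exfalso
        have e2 : (4096 : ℤ) = 2 ^ 12 := by norm_num
        rw [e2] at k5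
        exact hℓ2 (hp.dvd_of_dvd_pow k5)
      · have k6 : (ℓ : ℤ) ∣ b := (k5.mul_left 2).trans h2
        rw [hD]
        exact k6.mul_right _
    · exact hp.dvd_of_dvd_pow k4
  -- `ℓ` divides `G`
  have kG' : (ℓ : ℤ) ∣ Gf A B a b := by
    have e : Gf A B a b ^ 3 = Hf A B a b ^ 2 - D * (16 * (A * D) * Gf A B a b +
        64 * (B * D ^ 2)) := by
      rw [curve_id, ← hD]
      ring
    refine hp.dvd_of_dvd_pow (n := 3) ?_
    rw [e]
    exact dvd_sub (dvd_pow kH two_ne_zero) (kD.mul_right _)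
  -- `ℓ` divides `b`
  have kb : (ℓ : ℤ) ∣ b := by
    rcases hp.dvd_or_dvd kD with k3 | k3
    · exact k3
    · have k4 : (ℓ : ℤ) ∣ 3 * a ^ 2 + A * b ^ 2 := by
        refine hp.dvd_of_dvd_pow (n := 2) ?_
        have e : (3 * a ^ 2 + A * b ^ 2) ^ 2 = Gf A B a b + 8 * a * gf A B a b := by
          rw [G_id]
          ring
        rw [e]
        exact dvd_add kG' (k3.mul_left _)
      have k5 : (ℓ : ℤ) ∣ (4 * A ^ 3 + 27 * B ^ 2) * b ^ 6 := by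
        rw [gcd_id]
        exact dvd_sub ((dvd_pow k4 two_ne_zero).mul_right _) ((k3.mul_left 27).mul_right _)
      rcases hp.dvd_or_dvd k5 with k6 | k6
      · exact (k6.mul_left 2).trans h2
      · exact hp.dvd_of_dvd_pow k6
  have ka : (ℓ : ℤ) ∣ a := by
    refine hp.dvd_of_dvd_pow (n := 4) ?_
    have e : a ^ 4 = Gf A B a b - b * (-2 * A * a ^ 2 * b - 8 * B * a * b ^ 2 + A ^ 2 * b ^ 3) := by
      unfold Gf
      ring
    rw [e]
    exact dvd_sub kG' (kb.mul_right _)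
  exact hp.not_isUnit (h1.isUnit_of_dvd' ka kb)

lemma twist_disc (A B D : ℤ) : (twist A B D).Δ = -16 * (4 * A ^ 3 + 27 * B ^ 2) * D ^ 6 := by
  simp only [WeierstrassCurve.Δ, WeierstrassCurve.b₂, WeierstrassCurve.b₄, WeierstrassCurve.b₆,
    WeierstrassCurve.b₈, twist]
  ring

/-- the members at the coprime `(a, b)` with `2 (4 A³ + 27 B²) ∣ b` are marked -/
theorem adm_marked {A B : ℤ} (hAB : 4 * A ^ 3 + 27 * B ^ 2 ≠ 0) {v : Fin 2 → ℤ}
    (h : Adm A B (v 0) (v 1)) : (twistFamily A B).Marked v := by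
  refine ⟨?_, ?_, ?_⟩
  · rw [twistFamily_curve, twist_disc]
    exact mul_ne_zero (mul_ne_zero (by norm_num) hAB) (pow_ne_zero 6 h.2.2)
  · intro i j _
    have h1 : eval v ((twistFamily A B).x i j) = Gf A B (v 0) (v 1) := eval_Gp A B v
    have h2 : eval v ((twistFamily A B).y i j) = Hf A B (v 0) (v 1) := eval_Hp A B v
    have h3 : eval v ((twistFamily A B).e i j) = 2 := by
      change eval v (C 2 : MvPolynomial (Fin 2) ℤ) = 2
      rw [eval_C]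
    rw [h1, h2, h3, twistFamily_curve]
    refine ⟨two_ne_zero, G_odd h, ?_, adm_ns h⟩
    simp only [OnCurve, twist]
    have := curve_id A B (v 0) (v 1)
    linarith
  · intro i j k hij hjk
    exfalso
    have h1 := i.isLt
    have h2 := k.isLt
    have h3 : (i : ℕ) < j := hij
    have h4 : (j : ℕ) < k := hjk
    omega

end Pool.Agent.K3h2.SR
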